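import Pool.Agent.L0h99.MN.Stm2

set_option autoImplicit false

/-!
# Module MAX of the project MD (helper99, MP_974d84_co)
-/

namespace Pool.Agent.H70.MD

open Finset Pool.Agent.L0h99.MN Pool.Agent.L0h99.MD

theorem MAX : St_MAX := by
  intro V _ _ G S hS hdeg
  classical
  let P : Set (SimpleGraph V) := {H | (∀ x y, H.Adj x y → x ∈ S ∧ y ∈ S) ∧
    (∀ x ∈ S, ∀ y ∈ S, x ≠ y → ¬ G.Adj x y → H.Adj x y) ∧ ∀ x, (N H x).card ≤ 2}
  have hfin : P.Finite := Set.toFinite P
  let H0 : SimpleGraph V :=
    { Adj := fun x y => x ∈ S ∧ y ∈ S ∧ x ≠ y ∧ ¬ G.Adj x y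
      symm := ⟨fun x y h => ⟨h.2.1, h.1, h.2.2.1.symm, fun h1 => h.2.2.2 h1.symm⟩⟩
      loopless := ⟨fun x h => h.2.2.1 rfl⟩ }
  have h0 : H0 ∈ P := by
    refine ⟨fun x y h => ⟨h.1, h.2.1⟩, fun x hx y hy h1 h2 => ⟨hx, hy, h1, h2⟩, fun x => ?_⟩
    by_cases hx : x ∈ S
    · have h1 : N H0 x ⊆ (S.erase x) \ (N G x ∩ S) := by
        intro y hy
        have hy' : H0.Adj x y := mem_N.1 hy
        obtain ⟨_, h3, h4, h5⟩ := hy'
        rw [mem_sdiff, mem_erase, mem_inter, mem_N]
        exact ⟨⟨h4.symm, h3⟩, fun h => h5 h.1⟩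
      have h2 : N G x ∩ S ⊆ S.erase x := by
        intro y hy
        rw [mem_inter, mem_N] at hy
        exact mem_erase.2 ⟨hy.1.ne', hy.2⟩
      have h3 := card_le_card h1
      rw [card_sdiff_of_subset h2, card_erase_of_mem hx, hS] at h3
      have h4 := hdeg x hx
      omega
    · have h1 : N H0 x = ∅ := by
        ext y
        simp only [mem_N, notMem_empty, iff_false]
        exact fun h => hx h.1
      rw [h1]
      simp
  obtain ⟨H, hH⟩ := hfin.exists_maximal ⟨H0, h0⟩
  have hP : H ∈ P := hH.1
  refine ⟨H, hP.1, hP.2.1, hP.2.2, fun x hx y hy hxy h1 h2 => ?_⟩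
  by_contra hnot
  let H' : SimpleGraph V := H ⊔ SimpleGraph.edge x y
  have hadj : ∀ a b, H'.Adj a b ↔ H.Adj a b ∨ ((a = x ∧ b = y) ∨ (a = y ∧ b = x)) := by
    intro a b
    show (H ⊔ SimpleGraph.edge x y).Adj a b ↔ _
    rw [SimpleGraph.sup_adj, SimpleGraph.edge_adj]
    constructor
    · rintro (h | h)
      · exact Or.inl h
      · exact Or.inr h.1
    · rintro (h | h)
      · exact Or.inl h
      · refine Or.inr ⟨h, ?_⟩
        rcases h with ⟨rfl, rfl⟩ | ⟨rfl, rfl⟩
        · exact hxy
        · exact hxy.symm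
  have hP' : H' ∈ P := by
    refine ⟨fun a b h => ?_, fun a ha b hb h3 h4 => ?_, fun a => ?_⟩
    · rcases (hadj a b).1 h with h | ⟨rfl, rfl⟩ | ⟨rfl, rfl⟩
      · exact hP.1 a b h
      · exact ⟨hx, hy⟩
      · exact ⟨hy, hx⟩
    · exact (hadj a b).2 (Or.inl (hP.2.1 a ha b hb h3 h4))
    · by_cases hax : a = x
      · have h5 : N H' a ⊆ insert y (N H x) := by
          intro b hb
          rw [mem_N, hadj] at hb
          rw [mem_insert, mem_N]
          rcases hb with h | ⟨_, h⟩ | ⟨h, _⟩
          · rw [← hax]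
            exact Or.inr h
          · exact Or.inl h
          · exact absurd (hax.symm.trans h) hxy
        have h6 := card_le_card h5
        have h7 := card_insert_le y (N H x)
        omega
      · by_cases hay : a = y
        · have h5 : N H' a ⊆ insert x (N H y) := by
            intro b hb
            rw [mem_N, hadj] at hb
            rw [mem_insert, mem_N]
            rcases hb with h | ⟨h, _⟩ | ⟨_, h⟩
            · rw [← hay]
              exact Or.inr h
            · exact absurd h hax
            · exact Or.inl h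
          have h6 := card_le_card h5
          have h7 := card_insert_le x (N H y)
          omega
        · have h5 : N H' a ⊆ N H a := by
            intro b hb
            rw [mem_N, hadj] at hb
            rw [mem_N]
            rcases hb with h | ⟨h, _⟩ | ⟨h, _⟩
            · exact h
            · exact absurd h hax
            · exact absurd h hay
          exact (card_le_card h5).trans (hP.2.2 a)
  have hle : H ≤ H' := le_sup_left
  have := hH.2 hP' hle
  exact hnot (this ((hadj x y).2 (Or.inr (Or.inl ⟨rfl, rfl⟩))))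

end Pool.Agent.H70.MD
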