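import Pool.Agent.L0h99.MN.Stm2

set_option autoImplicit false

/-!
# Module TYP of the project MD (helper99, MP_974d84_co)
-/

namespace Pool.Agent.H70.MD

open Finset Pool.Agent.L0h99.MN Pool.Agent.L0h99.MD

theorem TYP : St_TYP := by
  intro hev V _ _ H S hS hin hdeg hadj
  classical
  set R := S.filter (fun x => (N H x).card ≤ 1) with hR
  have hmem : ∀ x, x ∈ R ↔ x ∈ S ∧ (N H x).card ≤ 1 := fun x => by rw [hR, mem_filter]
  have h2 : ∀ x ∈ S, x ∉ R → (N H x).card = 2 := by
    intro x hx hxR
    rw [hmem] at hxR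
    have h3 := hdeg x
    have h4 : ¬ (N H x).card ≤ 1 := fun h => hxR ⟨hx, h⟩
    omega
  have hle : R.card ≤ 2 := by
    by_contra hcon
    have h3 : 2 < R.card := by omega
    obtain ⟨a, b, c, ha, hb, hc, hab, hac, hbc⟩ := two_lt_card_iff.1 h3
    rw [hmem] at ha hb hc
    have h4 := hadj a ha.1 b hb.1 hab ha.2 hb.2
    have h5 := hadj a ha.1 c hc.1 hac ha.2 hc.2
    have h6 : ({b, c} : Finset V) ⊆ N H a := by
      intro z hz
      rw [mem_insert, mem_singleton] at hz
      rw [mem_N]
      rcases hz with rfl | rfl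
      · exact h4
      · exact h5
    have h7 := card_le_card h6
    rw [card_pair hbc] at h7
    have := ha.2
    omega
  have hout : ∀ x, x ∉ S → (N H x).card = 0 := by
    intro x hx
    rw [card_eq_zero]
    ext y
    simp only [mem_N, notMem_empty, iff_false]
    exact fun h => hx (hin x y h).1
  have hsum : E2 H = ∑ x ∈ S, ((N H x).card : ℤ) := by
    unfold E2
    rw [← sum_subset (subset_univ S)]
    intro x _ hx
    rw [hout x hx]
    simp
  obtain hc | hc | hc : R.card = 0 ∨ R.card = 1 ∨ R.card = 2 := by omega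
  · left
    rw [card_eq_zero] at hc
    intro x hx
    exact h2 x hx (by rw [hc]; exact notMem_empty x)
  · right; left
    obtain ⟨u, hu⟩ := card_eq_one.1 hc
    have huR : u ∈ R := by rw [hu]; exact mem_singleton_self u
    have huS := ((hmem u).1 huR).1
    have hu1 := ((hmem u).1 huR).2
    have hoth : ∀ x ∈ S, x ≠ u → (N H x).card = 2 := by
      intro x hx hxu
      refine h2 x hx ?_
      rw [hu, mem_singleton]
      exact hxu
    refine ⟨u, huS, ?_, hoth⟩
    obtain ⟨m, hm⟩ := hev V H
    rw [hsum, ← add_sum_erase S _ huS] at hm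
    rw [sum_congr rfl (g := fun _ => (2 : ℤ)) (fun x hx => by
      rw [mem_erase] at hx
      rw [hoth x hx.2 hx.1]
      rfl), sum_const, card_erase_of_mem huS, hS] at hm
    rw [← card_eq_zero]
    simp only [nsmul_eq_mul] at hm
    push_cast at hm
    omega
  · right; right
    obtain ⟨p, q, hpq, hRpq⟩ := card_eq_two.1 hc
    have hpR : p ∈ R := by rw [hRpq]; exact mem_insert_self p _
    have hqR : q ∈ R := by rw [hRpq]; exact mem_insert_of_mem (mem_singleton_self q)
    rw [hmem] at hpR hqR
    have hA := hadj p hpR.1 q hqR.1 hpq hpR.2 hqR.2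
    refine ⟨p, hpR.1, q, hqR.1, hpq, ?_, ?_, fun x hx hxp hxq => h2 x hx ?_⟩
    · symm
      apply eq_of_subset_of_card_le
      · intro z hz
        rw [mem_singleton] at hz
        rw [hz, mem_N]
        exact hA
      · rw [card_singleton]
        exact hpR.2
    · symm
      apply eq_of_subset_of_card_le
      · intro z hz
        rw [mem_singleton] at hz
        rw [hz, mem_N]
        exact hA.symm
      · rw [card_singleton]
        exact hqR.2
    · rw [hRpq, mem_insert, mem_singleton]
      exact fun h => h.elim hxp hxq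

end Pool.Agent.H70.MD
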